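import Mathlib
import Pool.Agent.Helper17.TranslM
import Pool.Agent.Helper75.IP.Defs

/-!
# Independent powers: existence of the limit kernels (K1) and their mean (K4)
-/

set_option autoImplicit false
open MeasureTheory Filter Topology ProbabilityTheory Helper35.AG Helper75.IP
open scoped ENNReal BoundedContinuousFunction

namespace Helper88.IP

/-- joint law of `w` and `2 ^ k w` -/
noncomputable def law (α : Measure Tor) (k : ℕ) : Measure (Tor × Tor) :=
  α.map fun w => (w, (2 ^ k : ℕ) • w)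

theorem measurable_pair (k : ℕ) : Measurable fun w : Tor => (w, (2 ^ k : ℕ) • w) := by
  fun_prop

instance law_prob (α : Measure Tor) [IsProbabilityMeasure α] (k : ℕ) :
    IsProbabilityMeasure (law α k) :=
  Measure.isProbabilityMeasure_map (measurable_pair k).aemeasurable

theorem exists_limit (U : Ultrafilter ℕ) (α : Measure Tor) [IsProbabilityMeasure α] :
    ∃ P : Measure (Tor × Tor), IsProbabilityMeasure P ∧ ∀ f : Tor × Tor → ℂ, Continuous f →
      Tendsto (fun k : ℕ => ∫ w, f (w, (2 ^ k : ℕ) • w) ∂α) U (𝓝 (∫ p, f p ∂P)) := by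
  let l : ℕ → ProbabilityMeasure (Tor × Tor) := fun k => ⟨law α k, inferInstance⟩
  have hl : Tendsto l U (𝓝 (U.map l).lim) := (U.map l).le_nhds_lim
  refine ⟨((U.map l).lim : ProbabilityMeasure (Tor × Tor)), inferInstance, fun f hf => ?_⟩
  have h1 := (ProbabilityMeasure.tendsto_iff_forall_integral_rclike_tendsto ℂ).1 hl
    (BoundedContinuousFunction.mkOfCompact ⟨f, hf⟩)
  refine h1.congr fun k => ?_
  change ∫ p, f p ∂(law α k) = _
  rw [law, integral_map (measurable_pair k).aemeasurable hf.aestronglyMeasurable]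

theorem fst_eq {U : Ultrafilter ℕ} {α : Measure Tor} [IsProbabilityMeasure α]
    {P : Measure (Tor × Tor)} [IsProbabilityMeasure P]
    (h : ∀ f : Tor × Tor → ℂ, Continuous f →
      Tendsto (fun k : ℕ => ∫ w, f (w, (2 ^ k : ℕ) • w) ∂α) U (𝓝 (∫ p, f p ∂P))) :
    P.fst = α := by
  apply Helper17.TranslM.eq_of_fourier
  intro m
  have h1 : Tendsto (fun _ : ℕ => ∫ w, (fourier m w : ℂ) ∂α) U
      (𝓝 (∫ p : Tor × Tor, (fourier m p.1 : ℂ) ∂P)) := h (fun p => fourier m p.1) (by fun_prop)
  have h2 := tendsto_nhds_unique h1 tendsto_const_nhds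
  rw [Measure.fst, integral_map measurable_fst.aemeasurable (by fun_prop), h2]

theorem norm_fourier_mul (m : ℤ) (x : Tor) (z : ℂ) : ‖z * fourier m x‖ = ‖z‖ := by
  rw [norm_mul, fourier_apply, Circle.norm_coe, mul_one]

theorem norm_coef_le {κ : Kernel Tor Tor} [IsMarkovKernel κ] (j : ℤ) (w : Tor) :
    ‖∫ y, (fourier j y : ℂ) ∂(κ w)‖ ≤ 1 := by
  refine (norm_integral_le_of_norm_le_const (C := 1) (Eventually.of_forall fun y => ?_)).trans ?_
  · rw [fourier_apply, Circle.norm_coe]
  · simp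

theorem measurable_coef (κ : Kernel Tor Tor) [IsMarkovKernel κ] (j : ℤ) :
    StronglyMeasurable fun w => ∫ y, (fourier j y : ℂ) ∂(κ w) := by
  have h : StronglyMeasurable fun p : Tor × Tor => (fourier j p.2 : ℂ) := by
    have : Continuous fun p : Tor × Tor => (fourier j p.2 : ℂ) := by fun_prop
    exact this.stronglyMeasurable
  exact h.integral_kernel_prod_right'

/-- **K1** -/
theorem exists_lim (U : Ultrafilter ℕ) (α : Measure Tor) [IsProbabilityMeasure α] :
    ∃ κ : Kernel Tor Tor, IsMarkovKernel κ ∧ IsLim U α κ := by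
  obtain ⟨P, hP, h⟩ := exists_limit U α
  have hfst := fst_eq h
  refine ⟨P.condKernel, inferInstance, fun j a ha => ?_⟩
  have hcont : ∀ g : Tor → ℂ, Continuous g →
      Tendsto (fun k : ℕ => ∫ w, g w * fourier j ((2 ^ k : ℕ) • w) ∂α) U
        (𝓝 (∫ w, g w * ∫ y, (fourier j y : ℂ) ∂(P.condKernel w) ∂α)) := by
    intro g hg
    have h1 := h (fun p => g p.1 * fourier j p.2) (by fun_prop)
    have h2 : ∫ p, (g p.1 * fourier j p.2 : ℂ) ∂P =
        ∫ w, g w * ∫ y, (fourier j y : ℂ) ∂(P.condKernel w) ∂α := by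
      have h3 : Integrable (fun p : Tor × Tor => (g p.1 * fourier j p.2 : ℂ)) P := by
        have hc : Continuous fun p : Tor × Tor => (g p.1 * fourier j p.2 : ℂ) := by fun_prop
        exact (BoundedContinuousFunction.mkOfCompact ⟨_, hc⟩).integrable P
      rw [← Measure.integral_condKernel h3, hfst]
      refine integral_congr_ae (Eventually.of_forall fun w => ?_)
      exact integral_const_mul (g w) (fun y : Tor => (fourier j y : ℂ))
    rw [← h2]
    exact h1
  have hdiff : ∀ g : Tor → ℂ, Integrable g α →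
      (∀ k : ℕ, ‖(∫ w, a w * fourier j ((2 ^ k : ℕ) • w) ∂α) -
        ∫ w, g w * fourier j ((2 ^ k : ℕ) • w) ∂α‖ ≤ ∫ w, ‖a w - g w‖ ∂α) ∧
      ‖(∫ w, a w * ∫ y, (fourier j y : ℂ) ∂(P.condKernel w) ∂α) -
        ∫ w, g w * ∫ y, (fourier j y : ℂ) ∂(P.condKernel w) ∂α‖ ≤ ∫ w, ‖a w - g w‖ ∂α := by
    intro g hg
    have hb : ∀ F : Tor → ℂ, AEStronglyMeasurable F α → (∀ w, ‖F w‖ ≤ 1) →
        ‖(∫ w, a w * F w ∂α) - ∫ w, g w * F w ∂α‖ ≤ ∫ w, ‖a w - g w‖ ∂α := by
      intro F hF hF1
      rw [← integral_sub (ha.mul_bdd (c := 1) hF (Eventually.of_forall hF1))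
        (hg.mul_bdd (c := 1) hF (Eventually.of_forall hF1))]
      refine (norm_integral_le_integral_norm _).trans ?_
      refine integral_mono_of_nonneg (Eventually.of_forall fun w => norm_nonneg _)
        (ha.sub hg).norm (Eventually.of_forall fun w => ?_)
      change ‖a w * F w - g w * F w‖ ≤ ‖a w - g w‖
      rw [← sub_mul, norm_mul]
      exact mul_le_of_le_one_right (norm_nonneg _) (hF1 w)
    refine ⟨fun k => hb _ ?_ fun w => ?_, hb _ ?_ fun w => norm_coef_le j w⟩
    · have : Continuous fun w : Tor => (fourier j ((2 ^ k : ℕ) • w) : ℂ) := by fun_prop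
      exact this.aestronglyMeasurable
    · rw [fourier_apply, Circle.norm_coe]
    · exact (measurable_coef _ j).aestronglyMeasurable
  rw [Metric.tendsto_nhds]
  intro ε hε
  obtain ⟨g, hg, hgi⟩ := ha.exists_boundedContinuous_integral_sub_le (ε := ε / 4) (by positivity)
  obtain ⟨h1, h2⟩ := hdiff g hgi
  have h3 := (Metric.tendsto_nhds.1 (hcont g g.continuous)) (ε / 4) (by positivity)
  filter_upwards [h3] with k hk
  have h4 := h1 k
  rw [dist_eq_norm] at hk ⊢
  calc ‖(∫ w, a w * fourier j ((2 ^ k : ℕ) • w) ∂α) -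
        ∫ w, a w * ∫ y, (fourier j y : ℂ) ∂(P.condKernel w) ∂α‖
      = ‖((∫ w, a w * fourier j ((2 ^ k : ℕ) • w) ∂α) -
          ∫ w, g w * fourier j ((2 ^ k : ℕ) • w) ∂α) +
        ((∫ w, g w * fourier j ((2 ^ k : ℕ) • w) ∂α) -
          ∫ w, g w * ∫ y, (fourier j y : ℂ) ∂(P.condKernel w) ∂α) -
        ((∫ w, a w * ∫ y, (fourier j y : ℂ) ∂(P.condKernel w) ∂α) -
          ∫ w, g w * ∫ y, (fourier j y : ℂ) ∂(P.condKernel w) ∂α)‖ := by
        congr 1
        ring
    _ ≤ ε / 4 + ε / 4 + ε / 4 := by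
        refine (norm_sub_le _ _).trans (add_le_add ((norm_add_le _ _).trans (add_le_add ?_ ?_)) ?_)
        · exact h4.trans hg
        · exact hk.le
        · exact h2.trans hg
    _ < ε := by linarith

/-- **K4** the mean of a limit kernel of an invariant measure -/
theorem bind_eq {U : Ultrafilter ℕ} {μ : Measure Tor} [IsProbabilityMeasure μ] (hμ : Inv μ)
    {κ : Kernel Tor Tor} [IsMarkovKernel κ] (h : IsLim U μ κ) : μ.bind κ = μ := by
  have hb : IsProbabilityMeasure (μ.bind κ) := by
    refine ⟨?_⟩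
    rw [Measure.bind_apply MeasurableSet.univ κ.aemeasurable]
    simp
  apply Helper17.TranslM.eq_of_fourier
  intro m
  have h1 := h m (fun _ => 1) (integrable_const _)
  have h2 : ∀ k : ℕ, MeasurePreserving (fun x : Tor => (2 ^ k : ℕ) • x) μ μ := by
    intro k
    have h3 := hμ.two.iterate k
    have h4 : (fun x : Tor => (2 ^ k : ℕ) • x) = (fun x : Tor => (2 : ℕ) • x)^[k] := by
      funext x
      induction k with
      | zero => simp
      | succ k ih =>
        rw [Function.iterate_succ', Function.comp_apply, ← ih (hμ.two.iterate k), smul_smul,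
          pow_succ']
    rw [h4]
    exact h3
  have h5 : ∀ k : ℕ, ∫ w, (1 : ℂ) * fourier m ((2 ^ k : ℕ) • w) ∂μ =
      ∫ w, (fourier m w : ℂ) ∂μ := by
    intro k
    simp only [one_mul]
    have := integral_map (μ := μ) (h2 k).measurable.aemeasurable
      (f := fun w : Tor => (fourier m w : ℂ)) (by fun_prop)
    rw [(h2 k).map_eq] at this
    exact this.symm
  simp only [h5] at h1
  have h6 := tendsto_nhds_unique h1 tendsto_const_nhds
  simp only [one_mul] at h6
  rw [← h6]
  have h7 : (κ ∘ₖ Kernel.const Unit μ) () = μ.bind κ := by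
    rw [Kernel.comp_apply, Kernel.const_apply]
  have h8 : Integrable (fun y : Tor => (fourier m y : ℂ)) ((κ ∘ₖ Kernel.const Unit μ) ()) := by
    rw [h7]
    have hc : Continuous fun y : Tor => (fourier m y : ℂ) := by fun_prop
    exact (BoundedContinuousFunction.mkOfCompact ⟨_, hc⟩).integrable (μ.bind κ)
  have h9 := Kernel.integral_comp h8
  rw [h7, Kernel.const_apply] at h9
  exact h9

end Helper88.IP
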