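import Mathlib
import Pool.Agent.Helper17.TranslM
import Pool.Agent.Helper17.Furstenberg
import Pool.Agent.Helper75.IP.Defs
import Pool.Agent.Helper88.AG.Leb
import Pool.Agent.Helper26.CG.Marg

/-!
# Independent powers: translates (T)
-/

set_option autoImplicit false
open MeasureTheory Filter Topology ProbabilityTheory Helper35.AG Helper75.IP
open scoped ENNReal

namespace Helper88.IP

/-! ### convolution powers -/

theorem inv_dirac : Inv (Measure.dirac (0 : Tor)) := by
  constructor
  · refine ⟨by fun_prop, ?_⟩
    rw [Measure.map_dirac' (by fun_prop)]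
    simp
  · refine ⟨by fun_prop, ?_⟩
    rw [Measure.map_dirac' (by fun_prop)]
    simp

theorem inv_cp {μ : Measure Tor} [IsProbabilityMeasure μ] (hμ : Inv μ) (n : ℕ) :
    Inv (cp μ n) := by
  induction n with
  | zero => exact inv_dirac
  | succ n ih => exact ⟨Helper26.CG.mp_conv hμ.two ih.two, Helper26.CG.mp_conv hμ.three ih.three⟩

theorem conv_dirac (μ : Measure Tor) [IsProbabilityMeasure μ] :
    conv μ (Measure.dirac (0 : Tor)) = μ := by
  rw [conv, Measure.prod_dirac, Measure.map_map (by fun_prop) (by fun_prop)]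
  have : ((fun p : Tor × Tor => p.1 + p.2) ∘ fun x => (x, (0 : Tor))) = id := by
    funext x
    simp
  rw [this, Measure.map_id]

theorem cp_one (μ : Measure Tor) [IsProbabilityMeasure μ] : cp μ 1 = μ := conv_dirac μ

theorem integral_fourier_conv (μ ν : Measure Tor) [IsProbabilityMeasure μ]
    [IsProbabilityMeasure ν] (m : ℤ) :
    ∫ x, (fourier m x : ℂ) ∂(conv μ ν) =
      (∫ x, (fourier m x : ℂ) ∂μ) * ∫ x, (fourier m x : ℂ) ∂ν := by
  rw [conv, integral_map (by fun_prop) (by fun_prop), ← integral_prod_mul]
  refine integral_congr_ae (Eventually.of_forall fun p => ?_)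
  simp [fourier_apply, smul_add, AddCircle.toCircle_add]

theorem conv_volume (μ : Measure Tor) [IsProbabilityMeasure μ] :
    conv μ (volume : Measure Tor) = volume := by
  apply Helper17.TranslM.eq_of_fourier
  intro m
  rw [integral_fourier_conv]
  by_cases hm : m = 0
  · subst hm
    simp
  · rw [Helper17.TranslM.integral_fourier_vol hm, mul_zero]

theorem conv_add_smul (μ : Measure Tor) [IsProbabilityMeasure μ] {α : Measure Tor}
    [IsProbabilityMeasure α] {a : ℝ≥0∞} {σ : Measure Tor} [IsFiniteMeasure σ] (ha : a ≠ ⊤)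
    (h : α = a • volume + σ) : a • (volume : Measure Tor) ≤ conv μ α := by
  have hm : Measurable fun p : Tor × Tor => p.1 + p.2 := by fun_prop
  have hf : IsFiniteMeasure (a • (volume : Measure Tor)) := Measure.smul_finite _ ha
  have h1 : conv μ α = a • conv μ volume + conv μ σ := by
    rw [conv, conv, conv, h, Measure.prod_add, Measure.map_add _ _ hm, Measure.prod_smul_right,
      Measure.map_smul]
  rw [h1, conv_volume]
  exact Measure.le_add_right le_rfl

/-! ### images under an additive map -/

theorem ms_of_map {α β : Measure Tor} {f : Tor → Tor} (hf : Measurable f)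
    (h : Measure.MutuallySingular (α.map f) (β.map f)) : Measure.MutuallySingular α β := by
  obtain ⟨s, hs, h1, h2⟩ := h
  refine ⟨f ⁻¹' s, hf hs, ?_, ?_⟩
  · rwa [Measure.map_apply hf hs] at h1
  · rwa [Measure.map_apply hf hs.compl] at h2

theorem map_conv {μ ν : Measure Tor} [IsProbabilityMeasure μ] [IsProbabilityMeasure ν] (N : ℕ) :
    conv (μ.map fun x => N • x) (ν.map fun x => N • x) = (conv μ ν).map fun x => N • x := by
  have hf : Measurable fun x : Tor => N • x := by fun_prop
  have hm : Measurable fun p : Tor × Tor => p.1 + p.2 := by fun_prop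
  rw [conv, conv, Measure.map_prod_map _ _ hf hf, Measure.map_map hm (by fun_prop),
    Measure.map_map hf hm]
  congr 1
  funext p
  simp [smul_add]

theorem map_cp {μ : Measure Tor} [IsProbabilityMeasure μ] (N n : ℕ) :
    cp (μ.map fun x => N • x) n = (cp μ n).map fun x => N • x := by
  have hf : Measurable fun x : Tor => N • x := by fun_prop
  have hp : IsProbabilityMeasure (μ.map fun x => N • x) :=
    Measure.isProbabilityMeasure_map hf.aemeasurable
  induction n with
  | zero =>
    change Measure.dirac 0 = (Measure.dirac (0 : Tor)).map _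
    rw [Measure.map_dirac' hf]
    simp
  | succ n ih =>
    change conv _ (cp _ n) = (conv μ (cp μ n)).map _
    rw [ih, map_conv]

theorem inv_map {μ : Measure Tor} (hμ : Inv μ) (N : ℕ) : Inv (μ.map fun x => N • x) := by
  have hf : Measurable fun x : Tor => N • x := by fun_prop
  have key : ∀ k : ℕ, MeasurePreserving (fun x : Tor => k • x) μ μ →
      MeasurePreserving (fun x : Tor => k • x) (μ.map fun x => N • x) (μ.map fun x => N • x) := by
    intro k hk
    refine ⟨hk.measurable, ?_⟩
    rw [Measure.map_map hk.measurable hf]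
    have : ((fun x : Tor => k • x) ∘ fun x => N • x) = (fun x : Tor => N • x) ∘ fun x => k • x := by
      funext x
      simp only [Function.comp_apply, smul_smul, mul_comm]
    rw [this, ← Measure.map_map hf hk.measurable, hk.map_eq]
  exact ⟨key 2 hμ.two, key 3 hμ.three⟩

theorem map_withDensity_comp {μ : Measure Tor} {T : Tor → Tor} (hT : Measurable T)
    {h : Tor → ℝ≥0∞} (hh : Measurable h) :
    (μ.withDensity fun x => h (T x)).map T = (μ.map T).withDensity h := by
  ext s hs
  rw [Measure.map_apply hT hs, withDensity_apply _ (hT hs), withDensity_apply _ hs,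
    setLIntegral_map hs hh hT]

theorem ext_map {μ : Measure Tor} [IsProbabilityMeasure μ] (hμ : Inv μ) (hext : Ext μ) (N : ℕ) :
    Ext (μ.map fun x => N • x) := by
  have hf : Measurable fun x : Tor => N • x := by fun_prop
  have hp : IsProbabilityMeasure (μ.map fun x => N • x) :=
    Measure.isProbabilityMeasure_map hf.aemeasurable
  intro μ' c hμ'p hμ' hc hle
  obtain ⟨C, g, hC, hg, h0, hgC, hd⟩ := Helper26.CG.exists_density hc hle
  have hG : Measurable fun x => ENNReal.ofReal (g x) := hg.ennreal_ofReal
  have h1 : (μ.withDensity fun x => ENNReal.ofReal (g (N • x))).map (fun x => N • x) = μ' := by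
    rw [hd]
    exact map_withDensity_comp hf hG
  have hprob : IsProbabilityMeasure (μ.withDensity fun x => ENNReal.ofReal (g (N • x))) := by
    refine ⟨?_⟩
    have h2 : μ' Set.univ = 1 := measure_univ
    rw [← h1, Measure.map_apply hf MeasurableSet.univ, Set.preimage_univ] at h2
    exact h2
  have hinv : ∀ k : ℕ, MeasurePreserving (fun x : Tor => k • x) μ μ →
      MeasurePreserving (fun x : Tor => k • x) (μ.map fun x => N • x) (μ.map fun x => N • x) →
      MeasurePreserving (fun x : Tor => k • x) μ' μ' →
      MeasurePreserving (fun x : Tor => k • x) (μ.withDensity fun x => ENNReal.ofReal (g (N • x)))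
        (μ.withDensity fun x => ENNReal.ofReal (g (N • x))) := by
    intro k hk hk' hk''
    have h2 := Helper26.CG.inv_density hk' hk'' hg h0 hgC hd
    have h3 : ∀ᵐ x ∂μ, g (k • (N • x)) = g (N • x) := ae_of_ae_map hf.aemeasurable h2
    refine ⟨hk.measurable, ?_⟩
    have h4 : (μ.withDensity fun x => ENNReal.ofReal (g (N • x))) =
        μ.withDensity fun x => (fun y => ENNReal.ofReal (g (N • y))) (k • x) := by
      refine withDensity_congr_ae ?_
      filter_upwards [h3] with x hx
      rw [smul_comm, hx]
    have h5 := map_withDensity_comp (μ := μ) hk.measurable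
      (h := fun y => ENNReal.ofReal (g (N • y))) (hg.comp hf).ennreal_ofReal
    rw [hk.map_eq] at h5
    conv_lhs => rw [h4]
    exact h5
  have hle' : (μ.withDensity fun x => ENNReal.ofReal (g (N • x))) ≤ ENNReal.ofReal C • μ := by
    rw [← withDensity_const]
    exact withDensity_mono (Eventually.of_forall fun x => ENNReal.ofReal_le_ofReal (hgC _))
  have h6 := hext _ (ENNReal.ofReal C) hprob ⟨hinv 2 hμ.two (inv_map hμ N).two hμ'.two,
    hinv 3 hμ.three (inv_map hμ N).three hμ'.three⟩ ENNReal.ofReal_ne_top hle'
  rw [← h1, h6]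

theorem atoms_map {μ : Measure Tor} [IsProbabilityMeasure μ] (hat : ∀ x, μ {x} = 0) {N : ℕ}
    (hN : 0 < N) (x : Tor) : (μ.map fun x => N • x) {x} = 0 := by
  have hf : Measurable fun x : Tor => N • x := by fun_prop
  have hna : NullSingletonClass μ := ⟨hat⟩
  rw [Measure.map_apply hf (measurableSet_singleton x)]
  by_cases hx : ∃ y : Tor, N • y = x
  · obtain ⟨y, hy⟩ := hx
    have hfin : {u : Tor | N • u = 0}.Finite := AddCircle.finite_torsion 1 hN
    refine (((hfin.image fun u => y + u).subset ?_).countable).measure_zero μ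
    intro z hz
    refine ⟨z - y, ?_, by simp⟩
    have hz' : N • z = x := hz
    change N • (z - y) = 0
    rw [smul_sub, hz', hy, sub_self]
  · have : (fun x : Tor => N • x) ⁻¹' {x} = ∅ := by
      ext z
      simp only [Set.mem_preimage, Set.mem_singleton_iff, Set.mem_empty_iff_false, iff_false]
      exact fun h => hx ⟨z, h⟩
    rw [this, measure_empty]

theorem sing_map {μ : Measure Tor} [IsProbabilityMeasure μ]
    (hs : Measure.MutuallySingular μ (volume : Measure Tor)) {N : ℕ} (hN : 0 < N) :
    (μ.map fun x => N • x) ≠ volume := by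
  intro hcon
  have hf : Measurable fun x : Tor => N • x := by fun_prop
  obtain ⟨s, hsm, h1, h2⟩ := hs
  have hfin : {u : Tor | N • u = 0}.Finite := AddCircle.finite_torsion 1 hN
  set B : Set Tor := ⋃ z ∈ {u : Tor | N • u = 0}, (fun x => x + z) ⁻¹' sᶜ with hB
  have hBm : MeasurableSet B := by
    refine hfin.measurableSet_biUnion fun z _ => ?_
    exact (measurable_add_const z) hsm.compl
  have hB0 : (volume : Measure Tor) B = 0 := by
    rw [hB, measure_biUnion_null_iff hfin.countable]
    intro z _
    rw [measure_preimage_add_right]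
    exact h2
  have hBc : μ Bᶜ = 0 := by
    refine measure_mono_null ?_ h1
    intro x hx
    by_contra hxs
    apply hx
    simp only [hB, Set.mem_iUnion]
    exact ⟨0, by simp, by simpa using hxs⟩
  -- a measurable section
  set g : Tor → Tor := fun y => (((AddCircle.equivIco (1 : ℝ) 0 y : ℝ) / N : ℝ) : Tor) with hg
  have hgm : Measurable g := by
    have h3 : Measurable fun y : Tor => (AddCircle.equivIco (1 : ℝ) 0 y : ℝ) :=
      measurable_subtype_coe.comp (AddCircle.measurableEquivIco (1 : ℝ) 0).measurable
    have h4 : Continuous fun t : ℝ => (t : Tor) := AddCircle.continuous_mk' 1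
    exact h4.measurable.comp (h3.div_const _)
  have hNg : ∀ y : Tor, N • g y = y := by
    intro y
    rw [hg]
    change N • (((AddCircle.equivIco (1 : ℝ) 0 y : ℝ) / N : ℝ) : Tor) = y
    rw [← AddCircle.coe_nsmul, nsmul_eq_mul]
    have : (N : ℝ) * ((AddCircle.equivIco (1 : ℝ) 0 y : ℝ) / N) =
        (AddCircle.equivIco (1 : ℝ) 0 y : ℝ) := by
      have : (N : ℝ) ≠ 0 := by positivity
      field_simp
    rw [this]
    exact AddCircle.coe_equivIco
  have hinvB : ∀ x w : Tor, N • w = 0 → x ∈ B → x + w ∈ B := by
    intro x w hw hx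
    simp only [hB, Set.mem_iUnion] at hx ⊢
    obtain ⟨z, hz, hxz⟩ := hx
    refine ⟨z - w, ?_, ?_⟩
    · have hz' : N • z = 0 := hz
      change N • (z - w) = 0
      rw [smul_sub, hz', hw, sub_self]
    · have : x + w + (z - w) = x + z := by abel
      change x + w + (z - w) ∈ sᶜ
      rw [this]
      exact hxz
  have hpre : (fun x : Tor => N • x) ⁻¹' (g ⁻¹' B) = B := by
    ext x
    simp only [Set.mem_preimage]
    have h3 : N • (g (N • x) - x) = 0 := by
      rw [smul_sub, hNg, sub_self]
    constructor
    · intro h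
      have h4 := hinvB _ (-(g (N • x) - x)) (by rw [smul_neg, h3, neg_zero]) h
      have h5 : g (N • x) + -(g (N • x) - x) = x := by abel
      rwa [h5] at h4
    · intro h
      have h4 := hinvB _ (g (N • x) - x) h3 h
      have h5 : x + (g (N • x) - x) = g (N • x) := by abel
      rwa [h5] at h4
  have hvol : MeasurePreserving (fun x : Tor => N • x) (volume : Measure Tor) volume := by
    have h0 : (N : ℤ) ≠ 0 := by exact_mod_cast hN.ne'
    have h8 := Measure.measurePreserving_zsmul (volume : Measure Tor) h0
    simpa only [natCast_zsmul] using h8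
  have e1 : (volume : Measure Tor) (g ⁻¹' B) = 0 := by
    rw [← hvol.map_eq, Measure.map_apply hf (hgm hBm), hpre, hB0]
  rw [← hcon, Measure.map_apply hf (hgm hBm), hpre] at e1
  have h7 : μ (Set.univ : Set Tor) ≤ μ B + μ Bᶜ := by
    rw [← Set.union_compl_self B]
    exact measure_union_le _ _
  rw [e1, hBc, measure_univ] at h7
  simp at h7

/-! ### the theorem -/

/-- the statement of independent powers for the measure itself -/
def Indep : Prop :=
  ∀ (μ : Measure Tor), IsProbabilityMeasure μ → Inv μ → Ext μ → (∀ x, μ {x} = 0) →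
    μ ≠ volume → ∀ m n : ℕ, 1 ≤ m → m < n → Measure.MutuallySingular (cp μ n) (cp μ m)

theorem sing_vol (hI : Indep) {μ : Measure Tor} [IsProbabilityMeasure μ] (hμ : Inv μ)
    (hext : Ext μ) (hat : ∀ x, μ {x} = 0) (hne : μ ≠ volume) {n : ℕ} (hn : 1 ≤ n) :
    Measure.MutuallySingular (cp μ n) (volume : Measure Tor) := by
  obtain ⟨a, σ, ha1, hσf, hdec, hσ⟩ := Pool.Agent.Helper88.AG.decomp (cp μ n)
    (inv_cp hμ n).two.map_eq
  by_cases ha : a = 0
  · rw [hdec, ha, zero_smul, zero_add]
    exact hσ
  · exfalso
    have hat' : a ≠ ⊤ := ne_top_of_le_ne_top ENNReal.one_ne_top ha1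
    have h1 : a • (volume : Measure Tor) ≤ cp μ (n + 1) := conv_add_smul μ hat' hdec
    have h2 : a • (volume : Measure Tor) ≤ cp μ n := by
      conv_rhs => rw [hdec]
      exact Measure.le_add_right le_rfl
    have h3 := (hI μ inferInstance hμ hext hat hne n (n + 1) hn (Nat.lt_succ_self n)).mono h1 h2
    rw [Measure.MutuallySingular.self_iff] at h3
    have h4 : (a • (volume : Measure Tor)) Set.univ = 0 := by rw [h3]; simp
    rw [Measure.smul_apply, measure_univ, smul_eq_mul, mul_one] at h4
    exact ha h4

/-- **T** translates -/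
theorem indep_translate_of (hI : Indep) {μ : Measure Tor} [IsProbabilityMeasure μ] (hμ : Inv μ)
    (hext : Ext μ) (hat : ∀ x, μ {x} = 0) (hne : μ ≠ volume) {m n : ℕ} (hm : 1 ≤ m) (hmn : m < n)
    (u : Tor) : Measure.MutuallySingular ((cp μ n).map fun x => x + u) (cp μ m) := by
  by_cases hu : addOrderOf u = 0
  · have hMI : Helper17.FurstPQ.MI 2 3 := by
      refine ⟨le_rfl, by norm_num, ?_⟩
      exact_mod_cast Helper17.Furst.log_irr
    have hi := inv_cp hμ n
    exact (Helper17.TranslM.main hMI (sing_vol hI hμ hext hat hne (hm.trans hmn.le)) hi.two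
      hi.three le_rfl).1 u (addOrderOf_eq_zero_iff'.1 hu) (cp μ m) inferInstance (inv_cp hμ m).two
  · set N := addOrderOf u with hN
    have hNpos : 0 < N := Nat.pos_of_ne_zero hu
    have hf : Measurable fun x : Tor => N • x := by fun_prop
    have ha : Measurable fun x : Tor => x + u := by fun_prop
    have hp : IsProbabilityMeasure (μ.map fun x => N • x) :=
      Measure.isProbabilityMeasure_map hf.aemeasurable
    have hsv : Measure.MutuallySingular μ (volume : Measure Tor) := by
      have := sing_vol hI hμ hext hat hne le_rfl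
      rwa [cp_one] at this
    have h1 := hI (μ.map fun x => N • x) hp (inv_map hμ N) (ext_map hμ hext N)
      (atoms_map hat hNpos) (sing_map hsv hNpos) m n hm hmn
    rw [map_cp, map_cp] at h1
    refine ms_of_map hf ?_
    rw [Measure.map_map hf ha]
    have h2 : ((fun x : Tor => N • x) ∘ fun x => x + u) = fun x : Tor => N • x := by
      funext x
      rw [Function.comp_apply, smul_add, hN, addOrderOf_nsmul_eq_zero, add_zero]
    rw [h2]
    exact h1

end Helper88.IP
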