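import Mathlib

/-!
# IP, piece E7: the symmetric group has at most `2 ^ n` conjugacy classes
-/

namespace Pool.Agent.Helper88.IP

open Equiv

/-- IP-E7 -/
theorem card_conjClasses_perm (α : Type) [Fintype α] [DecidableEq α] :
    Nat.card (ConjClasses (Perm α)) ≤ 2 ^ Fintype.card α := by
  classical
  let f : ConjClasses (Perm α) → (Fintype.card α).Partition :=
    Quotient.lift (fun σ : Perm α => σ.partition)
      (fun a b h => Equiv.Perm.partition_eq_of_isConj.1 h)
  have hf : Function.Injective f := by
    rintro ⟨a⟩ ⟨b⟩ h
    exact Quotient.sound (Equiv.Perm.partition_eq_of_isConj.2 h)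
  have h1 : Nat.card (ConjClasses (Perm α)) ≤ Nat.card (Fintype.card α).Partition :=
    Nat.card_le_card_of_injective f hf
  have h2 : Nat.card (Fintype.card α).Partition ≤ Nat.card (Composition (Fintype.card α)) :=
    Nat.card_le_card_of_surjective _ Nat.Partition.ofComposition_surj
  have h3 : Nat.card (Composition (Fintype.card α)) ≤ 2 ^ Fintype.card α := by
    rw [Nat.card_eq_fintype_card, composition_card]
    exact Nat.pow_le_pow_right (by norm_num) (Nat.sub_le _ _)
  exact h1.trans (h2.trans h3)

end Pool.Agent.Helper88.IP
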